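import Pool.Agent.Lib.MP_0e3b4a_gt.Iface2

set_option autoImplicit false

/-! # DATA: the planar problem -/

namespace Pool.Agent.CutLoci.H57

open MeasureTheory Set Filter Topology

namespace DataAux

theorem ii {E : Type*} [NormedAddCommGroup E] {f : ℝ → E} (hf : IntegrableOn f (Ioc 0 1))
    {t : ℝ} (ht : t ∈ Icc (0 : ℝ) 1) : IntervalIntegrable f volume 0 t := by
  rw [intervalIntegrable_iff_integrableOn_Ioc_of_le ht.1]
  exact hf.mono_set (Ioc_subset_Ioc_right ht.2)

/-- a function whose primitives vanish is zero almost everywhere -/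
theorem ae_zero {E : Type*} [NormedAddCommGroup E] [NormedSpace ℝ E] [CompleteSpace E]
    {f : ℝ → E} (hf : IntegrableOn f (Ioc 0 1))
    (h : ∀ t ∈ Icc (0 : ℝ) 1, ∫ s in (0 : ℝ)..t, f s = 0) :
    ∀ᵐ t ∂(volume.restrict (Ioc (0 : ℝ) 1)), f t = 0 := by
  have h1 : IntervalIntegrable f volume 0 1 := ii hf ⟨zero_le_one, le_rfl⟩
  have h2 := h1.ae_hasDerivAt_integral
  have h3 : ∀ᵐ t : ℝ, t ≠ 1 := by
    rw [ae_iff]
    simp
  rw [ae_restrict_iff' measurableSet_Ioc]
  filter_upwards [h2, h3] with t ht ht1 hmem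
  have h4 := ht (by rw [uIcc_of_le zero_le_one]; exact ⟨hmem.1.le, hmem.2⟩) 0
    (by rw [uIcc_of_le zero_le_one]; exact ⟨le_rfl, zero_le_one⟩)
  have h5 : (fun x => ∫ s in (0 : ℝ)..x, f s) =ᶠ[𝓝 t] fun _ => 0 := by
    filter_upwards [Ioo_mem_nhds hmem.1 (lt_of_le_of_ne hmem.2 ht1)] with x hx
    exact h x ⟨hx.1.le, hx.2.le⟩
  exact h4.unique ((hasDerivAt_const t (0 : E)).congr_of_eventuallyEq h5)

theorem integrable_mul {A : Type} [NormedRing A] {f k : ℝ → A} (hf : ContinuousOn f (Icc 0 1))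
    (hk : IntegrableOn k (Ioc 0 1)) : IntegrableOn (fun s => f s * k s) (Ioc 0 1) := by
  rw [← integrableOn_Icc_iff_integrableOn_Ioc] at hk ⊢
  exact hk.continuousOn_mul hf isCompact_Icc

/-- the basis of the plane -/
noncomputable def e0 : EE 2 := EuclideanSpace.single 0 1
/-- the basis of the plane -/
noncomputable def e1 : EE 2 := EuclideanSpace.single 1 1

theorem eq_basis (a : EE 2) : a = a 0 • e0 + a 1 • e1 := by
  ext i
  fin_cases i <;> simp [e0, e1]

variable {g : Type} [NormedAddCommGroup g] [NormedSpace ℝ g] [FiniteDimensional ℝ g]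

/-- the bracket of the frame -/
noncomputable def ww (C : Carnot g 2) : g := C.br (C.X e0) (C.X e1)

omit [FiniteDimensional ℝ g] in
theorem br_X (C : Carnot g 2) (hskew : ∀ x y, C.br x y = -C.br y x) (a b : EE 2) :
    C.br (C.X a) (C.X b) = (a 0 * b 1 - a 1 * b 0) • ww C := by
  have h1 : C.br (C.X e1) (C.X e0) = -ww C := hskew _ _
  have h2 := C.br_self (C.X e0)
  have h3 := C.br_self (C.X e1)
  conv_lhs => rw [eq_basis a, eq_basis b]
  simp only [map_add, map_smul, add_apply, smul_apply, h1, h2, h3]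
  rw [show C.br (C.X e0) (C.X e1) = ww C from rfl]
  module

/-- the form `φ [a, [b, w]]` -/
noncomputable def Sf (C : Carnot g 2) (φ : g →L[ℝ] ℝ) : EE 2 →ₗ[ℝ] EE 2 →ₗ[ℝ] ℝ :=
  LinearMap.mk₂ ℝ (fun a b => φ (C.br (C.X a) (C.br (C.X b) (ww C))))
    (by intro a a' b; simp) (by intro c a b; simp) (by intro a b b'; simp)
    (by intro c a b; simp)

omit [FiniteDimensional ℝ g] in
theorem Sf_apply (C : Carnot g 2) (φ : g →L[ℝ] ℝ) (a b : EE 2) :
    Sf C φ a b = φ (C.br (C.X a) (C.br (C.X b) (ww C))) := rfl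

/-- the form `φ [c, [a, [b, w]]]` -/
noncomputable def Tf (C : Carnot g 2) (φ : g →L[ℝ] ℝ) :
    EE 2 →ₗ[ℝ] EE 2 →ₗ[ℝ] EE 2 →ₗ[ℝ] ℝ where
  toFun c := Sf C (φ.comp (C.br (C.X c)))
  map_add' c c' := by
    ext a b
    simp [Sf_apply]
  map_smul' c c' := by
    ext a b
    simp [Sf_apply]

omit [FiniteDimensional ℝ g] in
theorem Tf_apply (C : Carnot g 2) (φ : g →L[ℝ] ℝ) (c a b : EE 2) :
    Tf C φ c a b = φ (C.br (C.X c) (C.br (C.X a) (C.br (C.X b) (ww C)))) := rfl

omit [FiniteDimensional ℝ g] in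
theorem symm4 (C : Carnot g 2) (hskew : ∀ x y, C.br x y = -C.br y x) (a b : EE 2) :
    C.br (C.X a) (C.br (C.X b) (ww C)) = C.br (C.X b) (C.br (C.X a) (ww C)) := by
  rw [C.jacobi (C.X a) (C.X b) (ww C), br_X C hskew a b]
  simp [C.br_self]

omit [FiniteDimensional ℝ g] in
theorem gen_step (C : Carnot g 2) {j : ℕ} (hj : 1 ≤ j) {S : Set g}
    (hS : C.V j ≤ Submodule.span ℝ S) :
    C.V (j + 1) ≤ Submodule.span ℝ {z | ∃ a, ∃ y ∈ S, z = C.br (C.X a) y} := by
  rw [C.gen j hj, Submodule.span_le]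
  rintro z ⟨x, hx, y, hy, rfl⟩
  rw [← C.X_range] at hx
  obtain ⟨a, rfl⟩ := hx
  have h1 := hS hy
  refine Submodule.span_induction (p := fun y _ => C.br (C.X a) y ∈
    Submodule.span ℝ {z | ∃ a, ∃ y ∈ S, z = C.br (C.X a) y}) ?_ ?_ ?_ ?_ h1
  · intro y hy
    exact Submodule.subset_span ⟨a, y, hy, rfl⟩
  · rw [map_zero]
    exact Submodule.zero_mem _
  · intro y y' _ _ h h'
    rw [map_add]
    exact Submodule.add_mem _ h h'
  · intro c y _ h
    rw [map_smul]
    exact Submodule.smul_mem _ _ h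

omit [FiniteDimensional ℝ g] in
/-- elements of different layers are independent -/
theorem comp5 (C : Carnot g 2) {y : ℕ → g} (hy : ∀ j, y j ∈ C.V j)
    (h : y 1 + y 2 + y 3 + y 4 + y 5 = 0) :
    y 1 = 0 ∧ y 2 = 0 ∧ y 3 = 0 ∧ y 4 = 0 ∧ y 5 = 0 := by
  have d1 := C.D_V 1 _ (hy 1)
  have d2 := C.D_V 2 _ (hy 2)
  have d3 := C.D_V 3 _ (hy 3)
  have d4 := C.D_V 4 _ (hy 4)
  have d5 := C.D_V 5 _ (hy 5)
  norm_num at d1 d2 d3 d4 d5
  have h1 := congrArg C.D h
  simp only [map_add, map_zero, d1, d2, d3, d4, d5] at h1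
  have h2 := congrArg C.D h1
  simp only [map_add, map_zero, map_smul, d1, d2, d3, d4, d5] at h2
  have h3 := congrArg C.D h2
  simp only [map_add, map_zero, map_smul, d1, d2, d3, d4, d5] at h3
  have h4 := congrArg C.D h3
  simp only [map_add, map_zero, map_smul, d1, d2, d3, d4, d5] at h4
  have k : ∀ {c : ℝ} {z : g}, c ≠ 0 → c • z = 0 → z = 0 := fun hc hz =>
    (smul_eq_zero.1 hz).resolve_left hc
  refine ⟨k (c := 24) (by norm_num) ?_, k (c := -6) (by norm_num) ?_, k (c := 4) (by norm_num) ?_,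
    k (c := -6) (by norm_num) ?_, k (c := 24) (by norm_num) ?_⟩
  · linear_combination (norm := module) h4 - (14 : ℝ) • h3 + (71 : ℝ) • h2 - (154 : ℝ) • h1 +
      (120 : ℝ) • h
  · linear_combination (norm := module) h4 - (13 : ℝ) • h3 + (59 : ℝ) • h2 - (107 : ℝ) • h1 +
      (60 : ℝ) • h
  · linear_combination (norm := module) h4 - (12 : ℝ) • h3 + (49 : ℝ) • h2 - (78 : ℝ) • h1 +
      (40 : ℝ) • h
  · linear_combination (norm := module) h4 - (11 : ℝ) • h3 + (41 : ℝ) • h2 - (61 : ℝ) • h1 +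
      (30 : ℝ) • h
  · linear_combination (norm := module) h4 - (10 : ℝ) • h3 + (35 : ℝ) • h2 - (50 : ℝ) • h1 +
      (24 : ℝ) • h

omit [FiniteDimensional ℝ g] in
theorem X_mem (C : Carnot g 2) (a : EE 2) : C.X a ∈ C.V 1 := by
  rw [← C.X_range]
  exact ⟨a, rfl⟩

theorem dim5 (C : Carnot g 2) {w z3 z4 : g} (hw : w ∈ C.V 2) (h3 : z3 ∈ C.V 3)
    (h4 : z4 ∈ C.V 4) (hw0 : w ≠ 0) (h30 : z3 ≠ 0) (h40 : z4 ≠ 0) :
    5 ≤ Module.finrank ℝ g := by
  set Φ : EE 2 × ℝ × ℝ × ℝ →ₗ[ℝ] g := C.X.toLinearMap.coprod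
    ((LinearMap.toSpanSingleton ℝ g w).coprod ((LinearMap.toSpanSingleton ℝ g z3).coprod
      (LinearMap.toSpanSingleton ℝ g z4))) with hΦ
  have hinj : Function.Injective Φ := by
    rw [injective_iff_map_eq_zero]
    rintro ⟨a, x, y, z⟩ h
    simp only [hΦ, LinearMap.coprod_apply, LinearMap.toSpanSingleton_apply] at h
    change C.X a + (x • w + (y • z3 + z • z4)) = 0 at h
    obtain ⟨k1, k2, k3, k4, -⟩ := comp5 C (y := fun j => if j = 1 then C.X a else if j = 2 then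
      x • w else if j = 3 then y • z3 else if j = 4 then z • z4 else 0) (by
        intro j
        by_cases h1 : j = 1
        · subst h1; simpa using X_mem C a
        by_cases h2 : j = 2
        · subst h2; simpa using (C.V 2).smul_mem x hw
        by_cases h3' : j = 3
        · subst h3'; simpa using (C.V 3).smul_mem y h3
        by_cases h4' : j = 4
        · subst h4'; simpa using (C.V 4).smul_mem z h4
        simp [h1, h2, h3', h4']) (by
        simp only [if_true, show (2 : ℕ) ≠ 1 by decide, show (3 : ℕ) ≠ 1 by decide,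
          show (3 : ℕ) ≠ 2 by decide, show (4 : ℕ) ≠ 1 by decide, show (4 : ℕ) ≠ 2 by decide,
          show (4 : ℕ) ≠ 3 by decide, show (5 : ℕ) ≠ 1 by decide, show (5 : ℕ) ≠ 2 by decide,
          show (5 : ℕ) ≠ 3 by decide, show (5 : ℕ) ≠ 4 by decide, if_false]
        refine Eq.trans ?_ h
        abel)
    simp only [if_true, show (2 : ℕ) ≠ 1 by decide, show (3 : ℕ) ≠ 1 by decide,
      show (3 : ℕ) ≠ 2 by decide, show (4 : ℕ) ≠ 1 by decide, show (4 : ℕ) ≠ 2 by decide,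
      show (4 : ℕ) ≠ 3 by decide, if_false] at k1 k2 k3 k4
    have a0 : a = 0 := C.X_inj (by rw [k1, map_zero])
    have x0 := (smul_eq_zero.1 k2).resolve_right hw0
    have y0 := (smul_eq_zero.1 k3).resolve_right h30
    have z0 := (smul_eq_zero.1 k4).resolve_right h40
    rw [a0, x0, y0, z0]
    rfl
  have h1 := LinearMap.finrank_le_finrank_of_injective hinj
  have h2 : Module.finrank ℝ (EE 2 × ℝ × ℝ × ℝ) = 5 := by
    rw [Module.finrank_prod, Module.finrank_prod, Module.finrank_prod,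
      finrank_euclideanSpace_fin, Module.finrank_self]
  omega

theorem dim6 (C : Carnot g 2) {w z3 z4 z5 : g} (hw : w ∈ C.V 2) (h3 : z3 ∈ C.V 3)
    (h4 : z4 ∈ C.V 4) (h5 : z5 ∈ C.V 5) (hw0 : w ≠ 0) (h30 : z3 ≠ 0) (h40 : z4 ≠ 0)
    (h50 : z5 ≠ 0) : 6 ≤ Module.finrank ℝ g := by
  set Φ : EE 2 × ℝ × ℝ × ℝ × ℝ →ₗ[ℝ] g := C.X.toLinearMap.coprod
    ((LinearMap.toSpanSingleton ℝ g w).coprod ((LinearMap.toSpanSingleton ℝ g z3).coprod
      ((LinearMap.toSpanSingleton ℝ g z4).coprod (LinearMap.toSpanSingleton ℝ g z5)))) with hΦ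
  have hinj : Function.Injective Φ := by
    rw [injective_iff_map_eq_zero]
    rintro ⟨a, x, y, z, z'⟩ h
    simp only [hΦ, LinearMap.coprod_apply, LinearMap.toSpanSingleton_apply] at h
    change C.X a + (x • w + (y • z3 + (z • z4 + z' • z5))) = 0 at h
    obtain ⟨k1, k2, k3, k4, k5⟩ := comp5 C (y := fun j => if j = 1 then C.X a else if j = 2 then
      x • w else if j = 3 then y • z3 else if j = 4 then z • z4 else if j = 5 then z' • z5
        else 0) (by
        intro j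
        by_cases h1 : j = 1
        · subst h1; simpa using X_mem C a
        by_cases h2 : j = 2
        · subst h2; simpa using (C.V 2).smul_mem x hw
        by_cases h3' : j = 3
        · subst h3'; simpa using (C.V 3).smul_mem y h3
        by_cases h4' : j = 4
        · subst h4'; simpa using (C.V 4).smul_mem z h4
        by_cases h5' : j = 5
        · subst h5'; simpa using (C.V 5).smul_mem z' h5
        simp [h1, h2, h3', h4', h5']) (by
        simp only [if_true, show (2 : ℕ) ≠ 1 by decide, show (3 : ℕ) ≠ 1 by decide,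
          show (3 : ℕ) ≠ 2 by decide, show (4 : ℕ) ≠ 1 by decide, show (4 : ℕ) ≠ 2 by decide,
          show (4 : ℕ) ≠ 3 by decide, show (5 : ℕ) ≠ 1 by decide, show (5 : ℕ) ≠ 2 by decide,
          show (5 : ℕ) ≠ 3 by decide, show (5 : ℕ) ≠ 4 by decide, if_false]
        refine Eq.trans ?_ h
        abel)
    simp only [if_true, show (2 : ℕ) ≠ 1 by decide, show (3 : ℕ) ≠ 1 by decide,
      show (3 : ℕ) ≠ 2 by decide, show (4 : ℕ) ≠ 1 by decide, show (4 : ℕ) ≠ 2 by decide,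
      show (4 : ℕ) ≠ 3 by decide, show (5 : ℕ) ≠ 1 by decide, show (5 : ℕ) ≠ 2 by decide,
      show (5 : ℕ) ≠ 3 by decide, show (5 : ℕ) ≠ 4 by decide, if_false] at k1 k2 k3 k4 k5
    have a0 : a = 0 := C.X_inj (by rw [k1, map_zero])
    have x0 := (smul_eq_zero.1 k2).resolve_right hw0
    have y0 := (smul_eq_zero.1 k3).resolve_right h30
    have z0 := (smul_eq_zero.1 k4).resolve_right h40
    have z0' := (smul_eq_zero.1 k5).resolve_right h50
    rw [a0, x0, y0, z0, z0']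
    rfl
  have h1 := LinearMap.finrank_le_finrank_of_injective hinj
  have h2 : Module.finrank ℝ (EE 2 × ℝ × ℝ × ℝ × ℝ) = 6 := by
    rw [Module.finrank_prod, Module.finrank_prod, Module.finrank_prod, Module.finrank_prod,
      finrank_euclideanSpace_fin, Module.finrank_self]
  omega

end DataAux

open DataAux in
theorem data (g : Type) [NormedAddCommGroup g] [NormedSpace ℝ g] [FiniteDimensional ℝ g]
    (hT : TrivStatement g) (hS : StrucStatement g 2) (hG : GradeStatement g 2) :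
    DataStatement g := by
  intro C hs u l hN hu0
  obtain ⟨hgr, -, -, -, hskew⟩ := hG C
  have hui : IntegrableOn (fun s => (u s : EE 2)) (Ioc 0 1) :=
    (Lp.memLp u).integrable (by norm_num)
  obtain ⟨-, hAdc, hst⟩ := hS C u hui
  have htriv := hT C u l hN hu0
  obtain ⟨⟨hl0, hsing⟩, hsing2, -⟩ := hN
  have hAd : ∀ t ∈ Icc (0 : ℝ) 1, ∀ z, C.Ad u t z =
      z + ∫ s in (0 : ℝ)..t, C.Ad u s (C.br (C.X (u s)) z) := fun t ht => (hst t ht).2.2.2.1
  have h0 : (0 : ℝ) ∈ Icc (0 : ℝ) 1 := ⟨le_rfl, zero_le_one⟩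
  have hAd0 : ∀ z, C.Ad u 0 z = z := by
    intro z
    rw [hAd 0 h0]
    simp
  have hX := X_mem C
  have hw : ww C ∈ C.V 2 := hgr 1 1 _ (hX _) _ (hX _)
  have hz3 : ∀ b, C.br (C.X b) (ww C) ∈ C.V 3 := fun b => hgr 1 2 _ (hX b) _ hw
  have hz4 : ∀ a b, C.br (C.X a) (C.br (C.X b) (ww C)) ∈ C.V 4 := fun a b =>
    hgr 1 3 _ (hX a) _ (hz3 b)
  have hz5 : ∀ c a b, C.br (C.X c) (C.br (C.X a) (C.br (C.X b) (ww C))) ∈ C.V 5 := fun c a b =>
    hgr 1 4 _ (hX c) _ (hz4 a b)
  have hz6 : ∀ z ∈ C.V 5, ∀ c, C.br (C.X c) z = 0 := by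
    intro z hz c
    have h1 := hgr 1 5 _ (hX c) _ hz
    rw [C.V_big (1 + 5) (by omega)] at h1
    exact (Submodule.mem_bot ℝ).1 h1
  have hint : ∀ z, IntegrableOn (fun s => C.Ad u s (C.br (C.X (u s)) z)) (Ioc 0 1) := by
    intro z
    have h1 : IntegrableOn (fun s => C.br (C.X (u s))) (Ioc 0 1) :=
      (C.br.comp C.X).integrable_comp hui
    have h2 : IntegrableOn (fun s => C.Ad u s * C.br (C.X (u s))) (Ioc 0 1) :=
      integrable_mul hAdc h1
    exact (ContinuousLinearMap.apply ℝ g z).integrable_comp h2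
  have hfix : ∀ z ∈ C.V 5, ∀ t ∈ Icc (0 : ℝ) 1, C.Ad u t z = z := by
    intro z hz t ht
    rw [hAd t ht]
    simp [hz6 z hz]
  have hform : ∀ t ∈ Icc (0 : ℝ) 1, ∀ a b,
      l (C.Ad u t (C.br (C.X a) (C.br (C.X b) (ww C)))) =
        Sf C l a b + Tf C l (∫ s in (0 : ℝ)..t, u s) a b := by
    intro t ht a b
    have h1 : ∫ s in (0 : ℝ)..t, C.Ad u s (C.br (C.X (u s)) (C.br (C.X a) (C.br (C.X b) (ww C)))) =
        C.br (C.X (∫ s in (0 : ℝ)..t, u s)) (C.br (C.X a) (C.br (C.X b) (ww C))) := by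
      have h2 : ∫ s in (0 : ℝ)..t, C.Ad u s (C.br (C.X (u s))
          (C.br (C.X a) (C.br (C.X b) (ww C)))) = ∫ s in (0 : ℝ)..t,
          ((C.br.flip (C.br (C.X a) (C.br (C.X b) (ww C)))).comp C.X) (u s) := by
        refine intervalIntegral.integral_congr fun s hs' => ?_
        rw [uIcc_of_le ht.1] at hs'
        exact hfix _ (hz5 _ _ _) s ⟨hs'.1, hs'.2.trans ht.2⟩
      rw [h2, ContinuousLinearMap.intervalIntegral_comp_comm _ (ii hui ht)]
      rfl
    rw [hAd t ht, h1, map_add]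
    rfl
  have hzero : ∀ b, ∀ t ∈ Icc (0 : ℝ) 1, l (C.Ad u t (C.br (C.X b) (ww C))) = 0 := by
    intro b t ht
    have h1 := htriv t ht e0 e1 b
    rw [hskew (C.br (C.X e0) (C.X e1)) (C.X b), map_neg, map_neg, neg_eq_zero] at h1
    exact h1
  have hae : ∀ b, ∀ᵐ t ∂(volume.restrict (Ioc (0 : ℝ) 1)),
      l (C.Ad u t (C.br (C.X (u t)) (C.br (C.X b) (ww C)))) = 0 := by
    intro b
    refine ae_zero (f := fun s => l (C.Ad u s (C.br (C.X (u s)) (C.br (C.X b) (ww C)))))
      (l.integrable_comp (hint _)) fun t ht => ?_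
    have h1 := hzero b t ht
    have h2 := hzero b 0 h0
    rw [hAd0] at h2
    rw [hAd t ht, map_add, h2, zero_add] at h1
    exact (l.intervalIntegral_comp_comm (ii (hint _) ht)).trans h1
  -- the covector is determined by the forms
  have hne : Sf C l ≠ 0 ∨ Tf C l ≠ 0 := by
    by_contra hcon
    push Not at hcon
    obtain ⟨hS0, hT0⟩ := hcon
    have k1 : C.V 1 ≤ Submodule.span ℝ (range C.X) := by
      rw [← C.X_range]
      rintro _ ⟨a, rfl⟩
      exact Submodule.subset_span ⟨a, rfl⟩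
    have k2 : C.V 2 ≤ Submodule.span ℝ {ww C} := by
      refine (gen_step C le_rfl k1).trans (Submodule.span_le.2 ?_)
      rintro z ⟨a, _, ⟨b, rfl⟩, rfl⟩
      rw [br_X C hskew]
      exact Submodule.smul_mem _ _ (Submodule.subset_span rfl)
    have k3 := gen_step C (by norm_num) k2
    have k4 := gen_step C (by norm_num) k3
    have k5 := gen_step C (by norm_num) k4
    have hker : ∀ j, C.V j ≤ LinearMap.ker l.toLinearMap := by
      intro j
      have hcases : j = 0 ∨ j = 1 ∨ j = 2 ∨ j = 3 ∨ j = 4 ∨ j = 5 ∨ C.s < j := by omega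
      rcases hcases with rfl | rfl | rfl | rfl | rfl | rfl | hj
      · rw [C.V_zero]; exact bot_le
      · refine k1.trans (Submodule.span_le.2 ?_)
        rintro _ ⟨a, rfl⟩
        have h1 := hsing 0 h0 a
        rw [hAd0] at h1
        exact h1
      · refine k2.trans (Submodule.span_le.2 ?_)
        rintro _ rfl
        have h1 := hsing2 0 h0 e0 e1
        rw [hAd0] at h1
        exact h1
      · refine k3.trans (Submodule.span_le.2 ?_)
        rintro _ ⟨b, _, rfl, rfl⟩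
        have h1 := hzero b 0 h0
        rw [hAd0] at h1
        exact h1
      · refine k4.trans (Submodule.span_le.2 ?_)
        rintro _ ⟨a, _, ⟨b, _, rfl, rfl⟩, rfl⟩
        have h1 := LinearMap.congr_fun (LinearMap.congr_fun hS0 a) b
        exact h1
      · refine k5.trans (Submodule.span_le.2 ?_)
        rintro _ ⟨c, _, ⟨a, _, ⟨b, _, rfl, rfl⟩, rfl⟩, rfl⟩
        have h1 := LinearMap.congr_fun (LinearMap.congr_fun (LinearMap.congr_fun hT0 c) a) b
        exact h1
      · rw [C.V_big j hj]; exact bot_le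
    apply hl0
    ext x
    have h1 : x ∈ ⨆ j, C.V j := by rw [C.V_top]; exact Submodule.mem_top
    exact (iSup_le hker) h1
  have hT4 : Tf C l ≠ 0 → ∃ c a b, Tf C l c a b ≠ 0 := by
    intro h
    by_contra hcon
    push Not at hcon
    apply h
    ext c a b
    exact hcon c a b
  have hz40 : ∃ a b, C.br (C.X a) (C.br (C.X b) (ww C)) ≠ 0 := by
    by_contra hcon
    push Not at hcon
    rcases hne with h | h
    · apply h
      ext a b
      rw [Sf_apply, hcon]
      simp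
    · obtain ⟨c, a, b, h1⟩ := hT4 h
      apply h1
      rw [Tf_apply, hcon]
      simp
  refine ⟨Sf C l, Tf C l, ?_, ?_, hne, ?_, ?_, ?_⟩
  · intro a b
    rw [Sf_apply, Sf_apply, symm4 C hskew]
  · intro c a b
    rw [Tf_apply, Tf_apply, symm4 C hskew]
  · obtain ⟨a, b, h4⟩ := hz40
    have h3 : C.br (C.X b) (ww C) ≠ 0 := fun h => h4 (by rw [h, map_zero])
    have h2 : ww C ≠ 0 := fun h => h3 (by rw [h, map_zero])
    exact dim5 C hw (hz3 b) (hz4 a b) h2 h3 h4
  · intro h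
    obtain ⟨c, a, b, h1⟩ := hT4 h
    have h5 : C.br (C.X c) (C.br (C.X a) (C.br (C.X b) (ww C))) ≠ 0 := fun h => h1 (by
      rw [Tf_apply, h, map_zero])
    have h4 : C.br (C.X a) (C.br (C.X b) (ww C)) ≠ 0 := fun h => h5 (by rw [h, map_zero])
    have h3 : C.br (C.X b) (ww C) ≠ 0 := fun h => h4 (by rw [h, map_zero])
    have h2 : ww C ≠ 0 := fun h => h3 (by rw [h, map_zero])
    exact dim6 C hw (hz3 b) (hz4 a b) (hz5 c a b) h2 h3 h4 h5
  · have hmem : ∀ᵐ t ∂(volume.restrict (Ioc (0 : ℝ) 1)), t ∈ Ioc (0 : ℝ) 1 :=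
      ae_restrict_mem measurableSet_Ioc
    filter_upwards [hae e0, hae e1, hmem] with t h1 h2 ht b
    have h3 := hform t ⟨ht.1.le, ht.2⟩ (u t)
    have h4 : ∀ b, Sf C l (u t) b + Tf C l (∫ s in (0 : ℝ)..t, u s) (u t) b =
        l (C.Ad u t (C.br (C.X (u t)) (C.br (C.X b) (ww C)))) := fun b => (h3 b).symm
    rw [h4, eq_basis b]
    simp only [map_add, map_smul, add_apply, smul_apply, h1, h2, smul_zero, add_zero]

end Pool.Agent.CutLoci.H57
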