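import Pool.Agent.Lib.MP_0e3b4a_gt.H57.Uniq

set_option autoImplicit false

/-! # INV: the flow is invertible -/

namespace Pool.Agent.CutLoci.H57

open MeasureTheory Set Filter Topology

theorem reverse_ofFn {α : Type*} {N : ℕ} (f : Fin N → α) :
    (List.ofFn f).reverse = List.ofFn fun i => f (Fin.rev i) := by
  refine List.ext_getElem (by simp) fun i h1 h2 => ?_
  simp only [List.getElem_reverse, List.getElem_ofFn]
  congr 1
  ext
  simp only [Fin.val_rev, List.length_ofFn]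
  omega

theorem gron_two (hG : GronStatement) {A : Type} [NormedRing A] [NormedAlgebra ℝ A]
    {k Z : ℝ → A} (hk : IntegrableOn k (Ioc 0 1)) (hZ : ContinuousOn Z (Icc 0 1))
    (h : ∀ t ∈ Icc (0 : ℝ) 1, Z t = ∫ s in (0 : ℝ)..t, (Z s * k s - k s * Z s)) :
    ∀ t ∈ Icc (0 : ℝ) 1, Z t = 0 := by
  intro t ht
  have h0 : ∀ t ∈ Icc (0 : ℝ) 1, ‖Z t‖ ≤ ∫ s in (0 : ℝ)..t, ‖Z s‖ * (2 * ‖k s‖) := by
    intro t ht
    have hint : IntervalIntegrable (fun s => ‖Z s‖ * (2 * ‖k s‖)) volume 0 t := by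
      refine ((ii_of hk ht).norm.const_mul 2).continuousOn_mul ?_
      rw [uIcc_of_le ht.1]
      exact (hZ.mono (Icc_subset_Icc_right ht.2)).norm
    calc ‖Z t‖ = ‖∫ s in (0 : ℝ)..t, (Z s * k s - k s * Z s)‖ := by rw [← h t ht]
      _ ≤ _ := intervalIntegral.norm_integral_le_of_norm_le ht.1
        (ae_of_all _ fun s _ => by
          refine (norm_sub_le _ _).trans ?_
          have h1 := norm_mul_le (Z s) (k s)
          have h2 := norm_mul_le (k s) (Z s)
          nlinarith) hint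
  have h1 := hG (fun t => ‖Z t‖) (fun t => 2 * ‖k t‖) hZ.norm (hk.norm.const_mul 2)
    (fun _ _ => norm_nonneg _) (fun _ _ => by positivity) h0 t ht
  exact norm_eq_zero.1 h1

theorem inv (hG : GronStatement) (hP : ProdStatement) (hF : FlowStatement) : InvStatement := by
  intro r A _ _ _ R N hN u hu
  -- the flow in the opposite algebra
  let opL : A ≃L[ℝ] Aᵐᵒᵖ := MulOpposite.opContinuousLinearEquiv ℝ
  let R' : EE r →L[ℝ] Aᵐᵒᵖ := -((opL : A →L[ℝ] Aᵐᵒᵖ).comp R)
  have hR' : ∀ a, R' a = MulOpposite.op (-R a) := fun a => rfl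
  have hN' : Nil R' N := by
    intro a
    apply MulOpposite.unop_injective
    rw [MulOpposite.unop_list_prod, MulOpposite.unop_zero, List.map_ofFn, reverse_ofFn,
      ← hN fun i => -a (Fin.rev i)]
    congr 1
    congr 1
    funext i
    simp [hR']
  obtain ⟨hc, hs⟩ := hF r Aᵐᵒᵖ R' N hN' u hu
  obtain ⟨hc1, hs1⟩ := hF r A R N hN u hu
  set Γ := flow R N u with hΓ
  set L : ℝ → A := fun t => MulOpposite.unop (flow R' N u t) with hL
  have hLc : ContinuousOn L (Icc 0 1) := MulOpposite.continuous_unop.comp_continuousOn hc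
  have hRu : IntegrableOn (fun s => R (u s)) (Ioc 0 1) := R.integrable_comp hu
  have hRu' : IntegrableOn (fun s => R' (u s)) (Ioc 0 1) := R'.integrable_comp hu
  have hint : ∀ {B : Type} [NormedRing B] {f k : ℝ → B}, ContinuousOn f (Icc 0 1) →
      IntegrableOn k (Ioc 0 1) → IntegrableOn (fun s => f s * k s) (Ioc 0 1) := by
    intro B _ f k hf hk
    rw [← integrableOn_Icc_iff_integrableOn_Ioc] at hk ⊢
    exact hk.continuousOn_mul hf isCompact_Icc
  have hint' : ∀ {B : Type} [NormedRing B] {f k : ℝ → B}, ContinuousOn f (Icc 0 1) →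
      IntegrableOn k (Ioc 0 1) → IntegrableOn (fun s => k s * f s) (Ioc 0 1) := by
    intro B _ f k hf hk
    rw [← integrableOn_Icc_iff_integrableOn_Ioc] at hk ⊢
    exact hk.mul_continuousOn hf isCompact_Icc
  have hLs : ∀ t ∈ Icc (0 : ℝ) 1, L t = 1 + ∫ s in (0 : ℝ)..t, -(R (u s) * L s) := by
    intro t ht
    have h1 := congrArg opL.symm (hs t ht)
    have h2 : opL.symm (flow R' N u t) = L t := rfl
    rw [h2, map_add] at h1
    rw [h1]
    congr 1
    have h3 := (opL.symm : Aᵐᵒᵖ →L[ℝ] A).intervalIntegral_comp_comm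
      (ii_of (hint hc hRu') ht)
    have h4 : opL.symm (∫ s in (0 : ℝ)..t, flow R' N u s * R' (u s)) =
        (opL.symm : Aᵐᵒᵖ →L[ℝ] A) (∫ s in (0 : ℝ)..t, flow R' N u s * R' (u s)) := rfl
    rw [h4, ← h3]
    refine intervalIntegral.integral_congr fun s _ => ?_
    change MulOpposite.unop (flow R' N u s * R' (u s)) = -(R (u s) * L s)
    rw [MulOpposite.unop_mul, hR', MulOpposite.unop_op, neg_mul]
  have hx : IntegrableOn (fun s => Γ s * R (u s)) (Ioc 0 1) := hint hc1 hRu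
  have hy : IntegrableOn (fun s => -(R (u s) * L s)) (Ioc 0 1) := (hint' hLc hRu).neg
  have e1 : ∀ t ∈ Icc (0 : ℝ) 1, Γ t * L t = 1 := by
    intro t ht
    have h1 := hP A A A (ContinuousLinearMap.mul ℝ A) (fun s => Γ s * R (u s))
      (fun s => -(R (u s) * L s)) 1 1 hx hy t ht
    simp only [ContinuousLinearMap.mul_apply', mul_one] at h1
    rw [← hs1 t ht, ← hLs t ht] at h1
    rw [h1]
    have h2 : ∫ s in (0 : ℝ)..t, (Γ s * R (u s) * (1 + ∫ p in (0 : ℝ)..s, -(R (u p) * L p)) +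
        (1 + ∫ p in (0 : ℝ)..s, Γ p * R (u p)) * -(R (u s) * L s)) = ∫ s in (0 : ℝ)..t, 0 := by
      refine intervalIntegral.integral_congr fun s hs' => ?_
      rw [uIcc_of_le ht.1] at hs'
      have hs2 : s ∈ Icc (0 : ℝ) 1 := ⟨hs'.1, hs'.2.trans ht.2⟩
      beta_reduce
      rw [← hs1 s hs2, ← hLs s hs2]
      noncomm_ring
    rw [h2]
    simp
  have e2 : ∀ t ∈ Icc (0 : ℝ) 1, L t * Γ t - 1 = 0 := by
    refine gron_two hG (k := fun s => R (u s)) hRu ((hLc.mul hc1).sub continuousOn_const) ?_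
    intro t ht
    have h1 := hP A A A (ContinuousLinearMap.mul ℝ A) (fun s => -(R (u s) * L s))
      (fun s => Γ s * R (u s)) 1 1 hy hx t ht
    simp only [ContinuousLinearMap.mul_apply', mul_one] at h1
    rw [← hs1 t ht, ← hLs t ht] at h1
    rw [h1, add_sub_cancel_left]
    refine intervalIntegral.integral_congr fun s hs' => ?_
    rw [uIcc_of_le ht.1] at hs'
    have hs2 : s ∈ Icc (0 : ℝ) 1 := ⟨hs'.1, hs'.2.trans ht.2⟩
    beta_reduce
    rw [← hs1 s hs2, ← hLs s hs2]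
    noncomm_ring
  refine ⟨L, hLc, fun t ht => ⟨e1 t ht, sub_eq_zero.1 (e2 t ht), ?_⟩⟩
  rw [sub_eq_add_neg, ← intervalIntegral.integral_neg]
  exact hLs t ht

end Pool.Agent.CutLoci.H57
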