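import Pool.Agent.Lib.MP_0e3b4a_gt.Iface2

set_option autoImplicit false

/-! # NULL: the endpoints of special controls form null sets -/

namespace Pool.Agent.CutLoci.H57

open MeasureTheory Set Filter Topology

namespace NullAux

section

variable {g : Type} [NormedAddCommGroup g] [NormedSpace ℝ g] [FiniteDimensional ℝ g]

theorem null_range {E : Type} [NormedAddCommGroup E] [NormedSpace ℝ E] [FiniteDimensional ℝ E]
    [MeasurableSpace g] [BorelSpace g] (μ : Measure g) [μ.IsAddHaarMeasure] {f : E → g}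
    (hf : ContDiff ℝ 1 f) (h : Module.finrank ℝ E < Module.finrank ℝ g) : μ (range f) = 0 := by
  have h1 : μ ≪ Measure.hausdorffMeasure (((Module.finrank ℝ g : NNReal)) : ℝ) := by
    have h2 : (Measure.hausdorffMeasure ((Module.finrank ℝ g : ℕ) : ℝ) :
        Measure g).IsAddHaarMeasure := isAddHaarMeasure_hausdorffMeasure
    have h3 : ((Module.finrank ℝ g : NNReal) : ℝ) = ((Module.finrank ℝ g : ℕ) : ℝ) := by simp
    rw [h3]
    exact Measure.absolutelyContinuous_isAddHaarMeasure _ _
  refine measure_zero_of_dimH_lt h1 (lt_of_le_of_lt hf.dimH_range_le ?_)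
  rw [ENNReal.coe_natCast]
  exact_mod_cast h

theorem contDiff_exp : ContDiff ℝ 1 (NormedSpace.exp : Carnot.Aff g → Carnot.Aff g) := by
  rw [contDiff_iff_contDiffAt]
  intro x
  exact (NormedSpace.exp_analytic (𝕂 := ℝ) x).contDiffAt

omit [FiniteDimensional ℝ g] in
theorem contDiff_org {E : Type} [NormedAddCommGroup E] [NormedSpace ℝ E]
    {f : E → Carnot.Aff g} (hf : ContDiff ℝ 1 f) : ContDiff ℝ 1 fun x => Carnot.org (f x) :=
  contDiff_fst.comp (hf.clm_apply contDiff_const)

end

section

variable {Z : Type} [NormedAddCommGroup Z] [NormedSpace ℝ Z] {A : Type} [NormedRing A]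
  [NormedAlgebra ℝ A]

/-- polynomials in the first variable with continuously differentiable coefficients -/
noncomputable def PolZ (Z : Type) [NormedAddCommGroup Z] [NormedSpace ℝ Z] (A : Type)
    [NormedRing A] [NormedAlgebra ℝ A] : Submodule ℝ (ℝ → Z → A) :=
  Submodule.span ℝ {h | ∃ (j : ℕ) (c : Z → A), ContDiff ℝ 1 c ∧ h = fun t z => t ^ j • c z}

theorem polZ_smooth {G : ℝ → Z → A} (hG : G ∈ PolZ Z A) (t : ℝ) : ContDiff ℝ 1 (G t) := by
  refine Submodule.span_induction (p := fun G _ => ContDiff ℝ 1 (G t)) ?_ ?_ ?_ ?_ hG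
  · rintro _ ⟨j, c, hc, rfl⟩
    exact hc.const_smul (t ^ j)
  · exact contDiff_const
  · intro x y _ _ hx hy
    exact hx.add hy
  · intro c x _ hx
    exact hx.const_smul c

theorem polZ_cont {G : ℝ → Z → A} (hG : G ∈ PolZ Z A) (z : Z) : Continuous fun t => G t z := by
  refine Submodule.span_induction (p := fun G _ => Continuous fun t => G t z) ?_ ?_ ?_ ?_ hG
  · rintro _ ⟨j, c, hc, rfl⟩
    fun_prop
  · exact continuous_const
  · intro x y _ _ hx hy
    exact hx.add hy
  · intro c x _ hx
    exact hx.const_smul c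

theorem polZ_const (a : A) : (fun _ _ => a) ∈ PolZ Z A :=
  Submodule.subset_span ⟨0, fun _ => a, contDiff_const, by simp⟩

theorem polZ_mul {G : ℝ → Z → A} (hG : G ∈ PolZ Z A) {b : Z → A} (hb : ContDiff ℝ 1 b) :
    (fun t z => G t z * b z) ∈ PolZ Z A := by
  refine Submodule.span_induction (p := fun G _ => (fun t z => G t z * b z) ∈ PolZ Z A)
    ?_ ?_ ?_ ?_ hG
  · rintro _ ⟨j, c, hc, rfl⟩
    exact Submodule.subset_span ⟨j, fun z => c z * b z, hc.mul hb, by simp⟩
  · have h := (PolZ Z A).zero_mem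
    convert h using 1
    funext t z
    simp
  · intro x y _ _ hx hy
    have h := (PolZ Z A).add_mem hx hy
    convert h using 1
    funext t z
    simp [add_mul]
  · intro c x _ hx
    have h := (PolZ Z A).smul_mem c hx
    convert h using 1
    funext t z
    simp

theorem polZ_var {G : ℝ → Z → A} (hG : G ∈ PolZ Z A) : (fun t z => t • G t z) ∈ PolZ Z A := by
  refine Submodule.span_induction (p := fun G _ => (fun t z => t • G t z) ∈ PolZ Z A)
    ?_ ?_ ?_ ?_ hG
  · rintro _ ⟨j, c, hc, rfl⟩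
    exact Submodule.subset_span ⟨j + 1, c, hc, by funext t z; rw [smul_smul, pow_succ']⟩
  · have h := (PolZ Z A).zero_mem
    convert h using 1
    funext t z
    simp
  · intro x y _ _ hx hy
    have h := (PolZ Z A).add_mem hx hy
    convert h using 1
    funext t z
    simp
  · intro c x _ hx
    have h := (PolZ Z A).smul_mem c hx
    convert h using 1
    funext t z
    exact smul_comm _ _ _

theorem polZ_prim [CompleteSpace A] {G : ℝ → Z → A} (hG : G ∈ PolZ Z A) :
    ∃ H ∈ PolZ Z A, ∀ (t : ℝ) (z : Z), ∫ s in (0 : ℝ)..t, G s z = H t z := by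
  refine Submodule.span_induction (p := fun G _ => ∃ H ∈ PolZ Z A, ∀ (t : ℝ) (z : Z),
    ∫ s in (0 : ℝ)..t, G s z = H t z) ?_ ?_ ?_ ?_ hG
  · rintro _ ⟨j, c, hc, rfl⟩
    refine ⟨_, Submodule.subset_span ⟨j + 1, fun z => ((j + 1 : ℝ))⁻¹ • c z,
      hc.const_smul _, rfl⟩, fun t z => ?_⟩
    rw [intervalIntegral.integral_smul_const, integral_pow, smul_smul]
    congr 1
    simp [div_eq_mul_inv]
  · exact ⟨0, (PolZ Z A).zero_mem, fun t z => by simp⟩
  · rintro x y hx hy ⟨H, hH, h⟩ ⟨H', hH', h'⟩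
    refine ⟨H + H', (PolZ Z A).add_mem hH hH', fun t z => ?_⟩
    have h3 : ∫ s in (0 : ℝ)..t, (x + y) s z = ∫ s in (0 : ℝ)..t, (x s z + y s z) := rfl
    rw [h3, intervalIntegral.integral_add ((polZ_cont hx z).intervalIntegrable _ _)
      ((polZ_cont hy z).intervalIntegrable _ _), h, h']
    rfl
  · rintro c x hx ⟨H, hH, h⟩
    refine ⟨c • H, (PolZ Z A).smul_mem c hH, fun t z => ?_⟩
    have h3 : ∫ s in (0 : ℝ)..t, (c • x) s z = ∫ s in (0 : ℝ)..t, c • x s z := rfl
    rw [h3, intervalIntegral.integral_smul, h]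
    rfl

/-- the iterated integrals of affine controls are polynomials -/
theorem iter_polZ [CompleteSpace A] (R : EE 2 →L[ℝ] A) (k : ℕ) :
    ∃ G ∈ PolZ (EE 2 × EE 2) A, ∀ (t : ℝ) (z : EE 2 × EE 2),
      iter R (fun s => z.1 + (2 * s) • z.2) k t = G t z := by
  induction k with
  | zero => exact ⟨_, polZ_const 1, fun t z => rfl⟩
  | succ k ih =>
    obtain ⟨G, hG, h⟩ := ih
    have h1 : ContDiff ℝ 1 fun z : EE 2 × EE 2 => R z.1 := R.contDiff.comp contDiff_fst
    have h2 : ContDiff ℝ 1 fun z : EE 2 × EE 2 => R z.2 := R.contDiff.comp contDiff_snd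
    obtain ⟨H, hH, h'⟩ := polZ_prim ((PolZ (EE 2 × EE 2) A).add_mem (polZ_mul hG h1)
      ((PolZ (EE 2 × EE 2) A).smul_mem (2 : ℝ) (polZ_var (polZ_mul hG h2))))
    refine ⟨H, hH, fun t z => ?_⟩
    rw [← h' t z]
    change ∫ s in (0 : ℝ)..t, iter R (fun s => z.1 + (2 * s) • z.2) k s *
      R (z.1 + (2 * s) • z.2) = _
    refine intervalIntegral.integral_congr fun s _ => ?_
    simp only [h, Pi.add_apply, Pi.smul_apply, map_smul, map_add, mul_smul_comm, mul_add]
    rw [smul_smul]

end

end NullAux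

open NullAux in
theorem null (g : Type) [NormedAddCommGroup g] [NormedSpace ℝ g] [FiniteDimensional ℝ g] :
    NullStatement g := by
  intro _ _ μ _ C
  have hR : ∀ {E : Type} [NormedAddCommGroup E] [NormedSpace ℝ E] {f : E → EE 2},
      ContDiff ℝ 1 f → ContDiff ℝ 1 fun x => (NormedSpace.exp (C.R (f x)) : Carnot.Aff g) :=
    fun hf => contDiff_exp.comp (C.R.contDiff.comp hf)
  refine ⟨fun h => ?_, fun h => ?_, fun h => ?_⟩
  · refine measure_mono_null ?_ (null_range (E := EE 2) μ (f := fun c =>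
      Carnot.org (NormedSpace.exp (C.R c))) (contDiff_org (hR contDiff_id)) ?_)
    · rintro b ⟨c, rfl⟩
      exact ⟨c, rfl⟩
    · rw [finrank_euclideanSpace_fin]
      omega
  · refine measure_mono_null (t := range (fun z : EE 2 × EE 2 × ℝ =>
        Carnot.org (NormedSpace.exp (C.R z.1) * NormedSpace.exp (C.R z.2.1) *
          NormedSpace.exp (C.R (z.2.2 • z.1)))) ∪ range (fun z : EE 2 × EE 2 =>
        Carnot.org (NormedSpace.exp (C.R z.1) * NormedSpace.exp (C.R z.2)))) ?_
      (measure_union_null (null_range μ (contDiff_org ?_) ?_) (null_range μ (contDiff_org ?_) ?_))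
    · rintro b ⟨p, c2, r, r', rfl⟩
      by_cases hr : r = 0
      · right
        refine ⟨(c2, r' • p), ?_⟩
        simp [hr]
      · left
        refine ⟨(r • p, c2, r' / r), ?_⟩
        have h1 : (r' / r) • r • p = r' • p := by
          rw [smul_smul, div_mul_cancel₀ _ hr]
        simp only [h1]
    · exact ((hR contDiff_fst).mul (hR (contDiff_fst.comp contDiff_snd))).mul
        (hR ((contDiff_snd.comp contDiff_snd).smul contDiff_fst))
    · rw [Module.finrank_prod, Module.finrank_prod, finrank_euclideanSpace_fin,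
        Module.finrank_self]
      omega
    · exact (hR contDiff_fst).mul (hR contDiff_snd)
    · rw [Module.finrank_prod, finrank_euclideanSpace_fin]
      omega
  · refine measure_mono_null ?_ (null_range (E := EE 2 × EE 2) μ (f := fun z =>
      C.End (fun t => z.1 + (2 * t) • z.2)) ?_ ?_)
    · rintro b ⟨P, Q, rfl⟩
      exact ⟨(P, Q), rfl⟩
    · change ContDiff ℝ 1 fun z : EE 2 × EE 2 => Carnot.org
        (flow C.R (C.s + 1) (fun t => z.1 + (2 * t) • z.2) 1)
      apply contDiff_org
      simp only [flow]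
      refine ContDiff.sum fun k _ => ?_
      obtain ⟨G, hG, h'⟩ := iter_polZ C.R k
      simp only [h']
      exact polZ_smooth hG 1
    · rw [Module.finrank_prod, finrank_euclideanSpace_fin]
      omega

end Pool.Agent.CutLoci.H57
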