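import Pool.Agent.Lib.MP_0e3b4a_gt.H57.Uniq

set_option autoImplicit false

/-! # RESC: restriction to a subinterval -/

namespace Pool.Agent.CutLoci.H57

open MeasureTheory Set Filter Topology

theorem resc_int {E : Type*} [NormedAddCommGroup E] [NormedSpace ℝ E] {u : ℝ → E}
    (hu : IntegrableOn u (Ioc 0 1)) {a b : ℝ} (ha : 0 ≤ a) (hab : a ≤ b) (hb : b ≤ 1) :
    IntegrableOn (fun t => (b - a) • u (a + (b - a) * t)) (Ioc 0 1) := by
  rcases hab.eq_or_lt with h | h
  · subst h
    simp
  · have h1 : IntervalIntegrable u volume a b := by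
      rw [intervalIntegrable_iff_integrableOn_Ioc_of_le hab]
      exact hu.mono_set (Ioc_subset_Ioc ha hb)
    have h2 := (h1.comp_add_left a).comp_mul_left (c := b - a)
    have hne : b - a ≠ 0 := (sub_pos.2 h).ne'
    rw [sub_self, zero_div, div_self hne, intervalIntegrable_iff_integrableOn_Ioc_of_le zero_le_one]
      at h2
    exact h2.smul (b - a)

theorem resc (hF : FlowStatement) (hU : UniqStatement) (hI : InvStatement) : RescStatement := by
  intro r A _ _ _ R N hN u hu a b ha hab hb
  have hv := resc_int hu ha hab hb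
  refine ⟨hv, ?_⟩
  set v : ℝ → EE r := fun t => (b - a) • u (a + (b - a) * t) with hvdef
  obtain ⟨hc, hs⟩ := hF r A R N hN u hu
  obtain ⟨hc', hs'⟩ := hF r A R N hN v hv
  obtain ⟨L, hLc, hL⟩ := hI r A R N hN u hu
  have haI : a ∈ Icc (0 : ℝ) 1 := ⟨ha, hab.trans hb⟩
  obtain ⟨hL1, hL2, -⟩ := hL a haI
  have hmem : ∀ t ∈ Icc (0 : ℝ) 1, a + (b - a) * t ∈ Icc (0 : ℝ) 1 := by
    intro t ht
    have h0 : 0 ≤ b - a := sub_nonneg.2 hab
    constructor
    · have := mul_nonneg h0 ht.1
      linarith
    · have := mul_le_mul_of_nonneg_left ht.2 h0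
      linarith
  have hRu : IntegrableOn (fun s => R (u s)) (Ioc 0 1) := R.integrable_comp hu
  have hRv : IntegrableOn (fun s => R (v s)) (Ioc 0 1) := R.integrable_comp hv
  have hint : ∀ {f k : ℝ → A}, ContinuousOn f (Icc 0 1) →
      IntegrableOn k (Ioc 0 1) → IntegrableOn (fun s => f s * k s) (Ioc 0 1) := by
    intro f k hf hk
    rw [← integrableOn_Icc_iff_integrableOn_Ioc] at hk ⊢
    exact hk.continuousOn_mul hf isCompact_Icc
  have hΓR := hint hc hRu
  -- the candidate
  set E : ℝ → A := fun t => L a * flow R N u (a + (b - a) * t) with hE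
  have hEc : ContinuousOn E (Icc 0 1) := by
    refine continuousOn_const.mul (hc.comp ?_ hmem)
    fun_prop
  have hEs : ∀ t ∈ Icc (0 : ℝ) 1, E t = 1 + ∫ s in (0 : ℝ)..t, E s * R (v s) := by
    intro t ht
    have h1 : flow R N u (a + (b - a) * t) = flow R N u a +
        ∫ s in a..(a + (b - a) * t), flow R N u s * R (u s) := by
      rw [hs _ (hmem t ht), hs a haI, add_assoc, intervalIntegral.integral_add_adjacent_intervals]
      · exact ii_of hΓR haI
      · exact (ii_of hΓR haI).symm.trans (ii_of hΓR (hmem t ht))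
    have h2 : ∫ s in a..(a + (b - a) * t), flow R N u s * R (u s) =
        ∫ s in (0 : ℝ)..t, flow R N u (a + (b - a) * s) * R (v s) := by
      have h3 := intervalIntegral.smul_integral_comp_add_mul (a := 0) (b := t)
        (fun s => flow R N u s * R (u s)) (b - a) a
      rw [mul_zero, add_zero] at h3
      rw [← h3, ← intervalIntegral.integral_smul]
      refine intervalIntegral.integral_congr fun s _ => ?_
      simp only [hvdef, map_smul, mul_smul_comm]
    have h4 : ∫ s in (0 : ℝ)..t, E s * R (v s) =
        L a * ∫ s in (0 : ℝ)..t, flow R N u (a + (b - a) * s) * R (v s) := by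
      have h5 := (ContinuousLinearMap.mul ℝ A (L a)).intervalIntegral_comp_comm
        (ii_of (hint (hc.comp (f := fun s => a + (b - a) * s) (by fun_prop) hmem) hRv) ht)
      simp only [ContinuousLinearMap.mul_apply', Function.comp_apply] at h5
      rw [← h5]
      refine intervalIntegral.integral_congr fun s _ => ?_
      simp only [hE, mul_assoc]
    rw [h4, ← h2]
    simp only [hE]
    rw [h1, mul_add, hL2]
  have hX := hU A (fun s => R (v s)) (fun t => E t - flow R N v t) hRv (hEc.sub hc') (Or.inl ?_)
  · intro t ht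
    have h1 := sub_eq_zero.1 (hX t ht)
    rw [← h1]
    simp only [hE]
    rw [← mul_assoc, hL1, one_mul]
  · intro t ht
    simp only [sub_mul]
    rw [intervalIntegral.integral_sub (ii_of (hint hEc hRv) ht) (ii_of (hint hc' hRv) ht)]
    have h1 := hEs t ht
    have h2 := hs' t ht
    rw [h1, h2]
    abel

end Pool.Agent.CutLoci.H57
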