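import Pool.Agent.Lib.MP_0e3b4a_gt.Iface

set_option autoImplicit false

/-! # UNIQ: uniqueness for linear integral equations -/

namespace Pool.Agent.CutLoci.H57

open MeasureTheory Set Filter Topology

theorem ii_of {E : Type*} [NormedAddCommGroup E] {f : ℝ → E} (hf : IntegrableOn f (Ioc 0 1))
    {t : ℝ} (ht : t ∈ Icc (0 : ℝ) 1) : IntervalIntegrable f volume 0 t := by
  rw [intervalIntegrable_iff_integrableOn_Ioc_of_le ht.1]
  exact hf.mono_set (Ioc_subset_Ioc_right ht.2)

theorem uniq (hG : GronStatement) : UniqStatement := by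
  intro A _ _ _ k X hk hX h t ht
  have h0 : ∀ t ∈ Icc (0 : ℝ) 1, ‖X t‖ ≤ ∫ s in (0 : ℝ)..t, ‖X s‖ * ‖k s‖ := by
    intro t ht
    have hint : IntervalIntegrable (fun s => ‖X s‖ * ‖k s‖) volume 0 t := by
      refine (ii_of hk ht).norm.continuousOn_mul ?_
      rw [uIcc_of_le ht.1]
      exact (hX.mono (Icc_subset_Icc_right ht.2)).norm
    rcases h with h | h
    · calc ‖X t‖ = ‖∫ s in (0 : ℝ)..t, X s * k s‖ := by rw [← h t ht]
        _ ≤ _ := intervalIntegral.norm_integral_le_of_norm_le ht.1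
          (ae_of_all _ fun s _ => norm_mul_le _ _) hint
    · calc ‖X t‖ = ‖∫ s in (0 : ℝ)..t, k s * X s‖ := by rw [← h t ht]
        _ ≤ _ := intervalIntegral.norm_integral_le_of_norm_le ht.1
          (ae_of_all _ fun s _ => (norm_mul_le _ _).trans (mul_comm _ _).le) hint
  have h1 := hG (fun t => ‖X t‖) (fun t => ‖k t‖) hX.norm hk.norm (fun _ _ => norm_nonneg _)
    (fun _ _ => norm_nonneg _) h0 t ht
  exact norm_eq_zero.1 h1

end Pool.Agent.CutLoci.H57
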