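import Pool.Agent.Lib.MP_0e3b4a_gt.H76.Lims
import Pool.Agent.Lib.MP_0e3b4a_gt.Iface3

/-! # PROPA: propagation of elements of the local spans -/

set_option autoImplicit false

namespace Pool.Agent.CutLoci.H57

open MeasureTheory Set Filter Topology
open Pool.Agent.CutLoci.H76

theorem ne_left (t : ℝ) : (𝓝[<] t ⊓ ae (volume : Measure ℝ)).NeBot := by
  rw [Filter.inf_neBot_iff]
  intro U hU V hV
  obtain ⟨c, hc, hcU⟩ := mem_nhdsLT_iff_exists_Ioo_subset.1 hU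
  by_contra hne
  rw [Set.not_nonempty_iff_eq_empty] at hne
  have h1 : Ioo c t ⊆ Vᶜ := fun x hx hxV => by
    have : x ∈ U ∩ V := ⟨hcU hx, hxV⟩
    rw [hne] at this
    exact this
  have h2 : volume (Ioo c t) = 0 := measure_mono_null h1 (mem_ae_iff.1 hV)
  rw [Real.volume_Ioo, ENNReal.ofReal_eq_zero] at h2
  have h3 : c < t := hc
  linarith

theorem ne_right (t : ℝ) : (𝓝[>] t ⊓ ae (volume : Measure ℝ)).NeBot := by
  rw [Filter.inf_neBot_iff]
  intro U hU V hV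
  obtain ⟨c, hc, hcU⟩ := mem_nhdsGT_iff_exists_Ioo_subset.1 hU
  by_contra hne
  rw [Set.not_nonempty_iff_eq_empty] at hne
  have h1 : Ioo t c ⊆ Vᶜ := fun x hx hxV => by
    have : x ∈ U ∩ V := ⟨hcU hx, hxV⟩
    rw [hne] at this
    exact this
  have h2 : volume (Ioo t c) = 0 := measure_mono_null h1 (mem_ae_iff.1 hV)
  rw [Real.volume_Ioo, ENNReal.ofReal_eq_zero] at h2
  have h3 : t < c := hc
  linarith

variable {g : Type} [NormedAddCommGroup g] [NormedSpace ℝ g] [FiniteDimensional ℝ g] {r : ℕ}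

/-- The left local span at a later time contains the right local spans. -/
theorem right_le (C : Carnot g r) (u : ℝ → EE r) {s t η : ℝ} (hs : s ∈ Ioo (t - η) t) :
    rightS C u s ≤ Submodule.span ℝ
      {z | ∃ p ∈ Ioo (t - η) t ∩ Icc 0 1, ∃ a, z = C.Ad u p (C.X a)} := by
  refine (iInf_le _ (⟨t - s, sub_pos.2 hs.2⟩ : {η : ℝ // 0 < η})).trans ?_
  apply Submodule.span_mono
  rintro z ⟨p, ⟨hp, hp1⟩, a, rfl⟩
  refine ⟨p, ⟨⟨hs.1.trans hp.1, ?_⟩, hp1⟩, a, rfl⟩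
  have := hp.2
  simp only at this
  linarith

theorem left_le (C : Carnot g r) (u : ℝ → EE r) {s t η : ℝ} (hs : s ∈ Ioo t (t + η)) :
    leftS C u s ≤ Submodule.span ℝ
      {z | ∃ p ∈ Ioo t (t + η) ∩ Icc 0 1, ∃ a, z = C.Ad u p (C.X a)} := by
  refine (iInf_le _ (⟨s - t, sub_pos.2 hs.1⟩ : {η : ℝ // 0 < η})).trans ?_
  apply Submodule.span_mono
  rintro z ⟨p, ⟨hp, hp1⟩, a, rfl⟩
  refine ⟨p, ⟨⟨?_, hp.2.trans hs.2⟩, hp1⟩, a, rfl⟩
  have := hp.1
  simp only at this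
  linarith

variable (g r)

theorem propa (hS : StrucStatement g r) : PropaStatement g r := by
  intro C u a b z z' ha hab hb hz' hz hmem
  obtain ⟨-, hAc, hst⟩ := hS C u (ctl_int u)
  -- the derivative of `Ad`
  set Φ : ℝ → (g →L[ℝ] g) := fun s => (C.Ad u s).comp (C.br (C.X (u s))) with hΦ
  have hΦi : IntegrableOn Φ (Ioc 0 1) :=
    int_bilin (ContinuousLinearMap.compL ℝ g g g) hAc
      ((C.br.comp C.X).integrable_comp (ctl_int u))
  have hAd : ∀ t ∈ Icc (0 : ℝ) 1, C.Ad u t = 1 + ∫ s in (0 : ℝ)..t, Φ s := by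
    intro t ht
    ext w
    rw [(hst t ht).2.2.2.1 w, ContinuousLinearMap.add_apply,
      ContinuousLinearMap.intervalIntegral_apply
        (ii_of_int hΦi (left_mem_Icc.2 zero_le_one) ht)]
    rfl
  have hii := ii_of_int hΦi (left_mem_Icc.2 zero_le_one) (right_mem_Icc.2 zero_le_one)
  have hae := hii.ae_hasDerivAt_integral
  have hzi : IntervalIntegrable z' volume a b :=
    (intervalIntegrable_iff_integrableOn_Ioc_of_le hab.le).2 hz'
  have hae2 := hzi.ae_hasDerivAt_integral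
  have h1 : ∀ᵐ t : ℝ ∂volume, t ≠ b := by simp [ae_iff, measure_singleton]
  have hmem' := (ae_restrict_iff' measurableSet_Ioc).1 hmem
  rw [ae_restrict_iff' measurableSet_Ioc]
  filter_upwards [hae, hae2, h1] with t h h2 htb ht
  have ht' : t ∈ Ioo a b := ⟨ht.1, lt_of_le_of_ne ht.2 htb⟩
  have ht01 : t ∈ Ioo (0 : ℝ) 1 := ⟨ha.trans_lt ht'.1, ht'.2.trans_le hb⟩
  rw [uIcc_of_le (zero_le_one' ℝ)] at h
  have hd1 := h (Ioo_subset_Icc_self ht01) 0 (left_mem_Icc.2 zero_le_one)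
  have hd1' : HasDerivAt (C.Ad u) (Φ t) t := by
    have : HasDerivAt (fun x => (1 : g →L[ℝ] g) + ∫ s in (0 : ℝ)..x, Φ s) (Φ t) t :=
      hd1.const_add _
    refine this.congr_of_eventuallyEq ?_
    filter_upwards [Icc_mem_nhds ht01.1 ht01.2] with x hx
    exact hAd x hx
  rw [uIcc_of_le hab.le] at h2
  have hd2 := h2 (Ioo_subset_Icc_self ht') a (left_mem_Icc.2 hab.le)
  have hd2' : HasDerivAt z (z' t) t := by
    have : HasDerivAt (fun x => z a + ∫ s in a..x, z' s) (z' t) t := hd2.const_add _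
    refine this.congr_of_eventuallyEq ?_
    filter_upwards [Icc_mem_nhds ht'.1 ht'.2] with x hx
    exact hz x hx
  have hF : HasDerivAt (fun s => C.Ad u s (z s)) (C.Ad u t (z' t + C.br (C.X (u t)) (z t))) t := by
    have := hd1'.clm_apply hd2'
    convert this using 1
    rw [map_add, add_comm]
    rfl
  constructor
  · simp only [leftS, SetLike.mem_coe, Submodule.mem_iInf]
    rintro ⟨η, hη⟩
    have := ne_left t
    refine mem_of_deriv _ (l := 𝓝[<] t ⊓ ae volume)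
      (inf_le_left.trans (nhdsWithin_mono t fun x hx => ne_of_lt hx)) hF ?_
    have e1 : ∀ᶠ s in 𝓝[<] t ⊓ ae volume, s ∈ Ioo (max (t - η) a) t :=
      (inf_le_left : 𝓝[<] t ⊓ ae volume ≤ _)
        (Ioo_mem_nhdsLT (max_lt (by simpa using hη) ht'.1))
    have e2 : ∀ᶠ s in 𝓝[<] t ⊓ ae volume, s ∈ Ioc a b →
        C.Ad u s (z s) ∈ leftS C u s ⊓ rightS C u s :=
      (inf_le_right : 𝓝[<] t ⊓ ae volume ≤ _) hmem'
    filter_upwards [e1, e2] with s hs1 hs2
    have hm := max_lt_iff.1 hs1.1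
    exact right_le C u ⟨hm.1, hs1.2⟩ (hs2 ⟨hm.2, (hs1.2.trans ht'.2).le⟩).2
  · simp only [rightS, SetLike.mem_coe, Submodule.mem_iInf]
    rintro ⟨η, hη⟩
    have := ne_right t
    refine mem_of_deriv _ (l := 𝓝[>] t ⊓ ae volume)
      (inf_le_left.trans (nhdsWithin_mono t fun x hx => ne_of_gt hx)) hF ?_
    have e1 : ∀ᶠ s in 𝓝[>] t ⊓ ae volume, s ∈ Ioo t (min (t + η) b) :=
      (inf_le_left : 𝓝[>] t ⊓ ae volume ≤ _)
        (Ioo_mem_nhdsGT (lt_min (by simpa using hη) ht'.2))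
    have e2 : ∀ᶠ s in 𝓝[>] t ⊓ ae volume, s ∈ Ioc a b →
        C.Ad u s (z s) ∈ leftS C u s ⊓ rightS C u s :=
      (inf_le_right : 𝓝[>] t ⊓ ae volume ≤ _) hmem'
    filter_upwards [e1, e2] with s hs1 hs2
    have hm := lt_min_iff.1 hs1.2
    exact left_le C u ⟨hs1.1, hm.1⟩ (hs2 ⟨ht'.1.trans hs1.1, hm.2.le⟩).1

end Pool.Agent.CutLoci.H57
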