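import Pool.Agent.Lib.MP_0e3b4a_gt.Iface2

set_option autoImplicit false

/-! # PARA: the endpoint over a path in a parabola -/

namespace Pool.Agent.CutLoci.H57

open MeasureTheory Set Filter Topology

namespace ParaAux

theorem ii {E : Type*} [NormedAddCommGroup E] {f : ℝ → E} (hf : IntegrableOn f (Ioc 0 1))
    {t : ℝ} (ht : t ∈ Icc (0 : ℝ) 1) : IntervalIntegrable f volume 0 t := by
  rw [intervalIntegrable_iff_integrableOn_Ioc_of_le ht.1]
  exact hf.mono_set (Ioc_subset_Ioc_right ht.2)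

theorem cont_prim {E : Type*} [NormedAddCommGroup E] [NormedSpace ℝ E] {f : ℝ → E}
    (hf : IntegrableOn f (Ioc 0 1)) :
    ContinuousOn (fun t => ∫ s in (0 : ℝ)..t, f s) (Icc 0 1) := by
  have h := intervalIntegral.continuousOn_primitive_interval (μ := volume) (f := f) (a := (0 : ℝ))
    (b := 1) (by
      rw [uIcc_of_le zero_le_one, integrableOn_Icc_iff_integrableOn_Ioc]
      exact hf)
  rwa [uIcc_of_le zero_le_one] at h

/-- a function whose primitives vanish is zero almost everywhere -/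
theorem ae_zero {E : Type*} [NormedAddCommGroup E] [NormedSpace ℝ E] [CompleteSpace E]
    {f : ℝ → E} (hf : IntegrableOn f (Ioc 0 1))
    (h : ∀ t ∈ Icc (0 : ℝ) 1, ∫ s in (0 : ℝ)..t, f s = 0) :
    ∀ᵐ t ∂(volume.restrict (Ioc (0 : ℝ) 1)), f t = 0 := by
  have h1 : IntervalIntegrable f volume 0 1 := ii hf ⟨zero_le_one, le_rfl⟩
  have h2 := h1.ae_hasDerivAt_integral
  have h3 : ∀ᵐ t : ℝ, t ≠ 1 := by
    rw [ae_iff]
    simp
  rw [ae_restrict_iff' measurableSet_Ioc]
  filter_upwards [h2, h3] with t ht ht1 hmem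
  have h4 := ht (by rw [uIcc_of_le zero_le_one]; exact ⟨hmem.1.le, hmem.2⟩) 0
    (by rw [uIcc_of_le zero_le_one]; exact ⟨le_rfl, zero_le_one⟩)
  have h5 : (fun x => ∫ s in (0 : ℝ)..x, f s) =ᶠ[𝓝 t] fun _ => 0 := by
    filter_upwards [Ioo_mem_nhds hmem.1 (lt_of_le_of_ne hmem.2 ht1)] with x hx
    exact h x ⟨hx.1.le, hx.2.le⟩
  exact h4.unique ((hasDerivAt_const t (0 : E)).congr_of_eventuallyEq h5)

theorem pow_prim (hP : ProdStatement) {f : ℝ → ℝ} (hf : IntegrableOn f (Ioc 0 1)) (j : ℕ) :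
    ∀ t ∈ Icc (0 : ℝ) 1, (∫ s in (0 : ℝ)..t, f s) ^ (j + 1) =
      ∫ s in (0 : ℝ)..t, f s * ((j + 1 : ℝ) * (∫ p in (0 : ℝ)..s, f p) ^ j) := by
  induction j with
  | zero =>
    intro t _
    simp
  | succ j ih =>
    intro t ht
    have hθ := cont_prim hf
    have hint : IntegrableOn (fun s => f s * ((j + 1 : ℝ) * (∫ p in (0 : ℝ)..s, f p) ^ j))
        (Ioc 0 1) := by
      rw [← integrableOn_Icc_iff_integrableOn_Ioc] at hf ⊢
      exact hf.mul_continuousOn (continuousOn_const.mul (hθ.pow j)) isCompact_Icc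
    have h1 := hP ℝ ℝ ℝ (ContinuousLinearMap.mul ℝ ℝ) f
      (fun s => f s * ((j + 1 : ℝ) * (∫ p in (0 : ℝ)..s, f p) ^ j)) 0 0 hf hint t ht
    simp only [ContinuousLinearMap.mul_apply', mul_zero, zero_add] at h1
    rw [← ih t ht] at h1
    rw [pow_succ', h1]
    refine intervalIntegral.integral_congr fun s hs => ?_
    rw [uIcc_of_le ht.1] at hs
    have hs' : s ∈ Icc (0 : ℝ) 1 := ⟨hs.1, hs.2.trans ht.2⟩
    rw [← ih s hs']
    push_cast
    ring

section

variable {A : Type} [NormedRing A] [NormedAlgebra ℝ A]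

/-- polynomials of one real variable with values in `A` -/
noncomputable def Pol (A : Type) [NormedRing A] [NormedAlgebra ℝ A] : Submodule ℝ (ℝ → A) :=
  Submodule.span ℝ {h | ∃ (j : ℕ) (a : A), h = fun x => x ^ j • a}

theorem pol_cont {G : ℝ → A} (hG : G ∈ Pol A) : Continuous G := by
  refine Submodule.span_induction ?_ ?_ ?_ ?_ hG
  · rintro _ ⟨j, a, rfl⟩
    fun_prop
  · exact continuous_const
  · intro x y _ _ hx hy
    exact hx.add hy
  · intro c x _ hx
    exact hx.const_smul c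

theorem pol_const (a : A) : (fun _ => a) ∈ Pol A :=
  Submodule.subset_span ⟨0, a, by simp⟩

theorem pol_mul {G : ℝ → A} (hG : G ∈ Pol A) (c : A) : (fun x => G x * c) ∈ Pol A := by
  refine Submodule.span_induction ?_ ?_ ?_ ?_ hG
  · rintro _ ⟨j, a, rfl⟩
    exact Submodule.subset_span ⟨j, a * c, by simp⟩
  · have h := (Pol A).zero_mem
    convert h using 1
    funext z
    simp
  · intro x y _ _ hx hy
    have h := (Pol A).add_mem hx hy
    convert h using 1
    funext z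
    simp [add_mul]
  · intro c x _ hx
    have h := (Pol A).smul_mem c hx
    convert h using 1
    funext z
    simp

theorem pol_var {G : ℝ → A} (hG : G ∈ Pol A) : (fun x => x • G x) ∈ Pol A := by
  refine Submodule.span_induction ?_ ?_ ?_ ?_ hG
  · rintro _ ⟨j, a, rfl⟩
    exact Submodule.subset_span ⟨j + 1, a, by funext x; rw [smul_smul, pow_succ']⟩
  · have h := (Pol A).zero_mem
    convert h using 1
    funext z
    simp
  · intro x y _ _ hx hy
    have h := (Pol A).add_mem hx hy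
    convert h using 1
    funext z
    simp
  · intro c x _ hx
    have h := (Pol A).smul_mem c hx
    convert h using 1
    funext z
    exact smul_comm _ _ _

theorem pol_prim [CompleteSpace A] (hP : ProdStatement) {G : ℝ → A} (hG : G ∈ Pol A) :
    ∃ H ∈ Pol A, ∀ f : ℝ → ℝ, IntegrableOn f (Ioc 0 1) → ∀ t ∈ Icc (0 : ℝ) 1,
      ∫ s in (0 : ℝ)..t, f s • G (∫ p in (0 : ℝ)..s, f p) = H (∫ p in (0 : ℝ)..t, f p) := by
  refine Submodule.span_induction (p := fun G _ => ∃ H ∈ Pol A, ∀ f : ℝ → ℝ,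
    IntegrableOn f (Ioc 0 1) → ∀ t ∈ Icc (0 : ℝ) 1,
      ∫ s in (0 : ℝ)..t, f s • G (∫ p in (0 : ℝ)..s, f p) = H (∫ p in (0 : ℝ)..t, f p))
    ?_ ?_ ?_ ?_ hG
  · rintro _ ⟨j, a, rfl⟩
    refine ⟨_, Submodule.subset_span ⟨j + 1, ((j + 1 : ℝ))⁻¹ • a, rfl⟩, fun f hf t ht => ?_⟩
    have h1 := pow_prim hP hf j t ht
    have h2 : ∫ s in (0 : ℝ)..t, f s • (∫ p in (0 : ℝ)..s, f p) ^ j • a =
        ∫ s in (0 : ℝ)..t, (f s * ((j + 1 : ℝ) * (∫ p in (0 : ℝ)..s, f p) ^ j)) •
          ((j + 1 : ℝ))⁻¹ • a := by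
      refine intervalIntegral.integral_congr fun s _ => ?_
      rw [smul_smul, smul_smul]
      congr 1
      have : (j + 1 : ℝ) ≠ 0 := by positivity
      field_simp
    rw [h2, intervalIntegral.integral_smul_const, ← h1]
  · exact ⟨0, (Pol A).zero_mem, fun f hf t ht => by simp⟩
  · rintro x y hx hy ⟨H, hH, h⟩ ⟨H', hH', h'⟩
    refine ⟨H + H', (Pol A).add_mem hH hH', fun f hf t ht => ?_⟩
    have hint : ∀ {G : ℝ → A}, G ∈ Pol A →
        IntervalIntegrable (fun s => f s • G (∫ p in (0 : ℝ)..s, f p)) volume 0 t := by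
      intro G hG
      refine ii ?_ ht
      have hc : ContinuousOn (fun s => G (∫ p in (0 : ℝ)..s, f p)) (Icc 0 1) :=
        (pol_cont hG).comp_continuousOn (cont_prim hf)
      rw [← integrableOn_Icc_iff_integrableOn_Ioc] at hf ⊢
      exact hf.smul_continuousOn hc isCompact_Icc
    have h3 : ∫ s in (0 : ℝ)..t, f s • (x + y) (∫ p in (0 : ℝ)..s, f p) =
        ∫ s in (0 : ℝ)..t, (f s • x (∫ p in (0 : ℝ)..s, f p) +
          f s • y (∫ p in (0 : ℝ)..s, f p)) := by
      refine intervalIntegral.integral_congr fun s _ => ?_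
      simp
    rw [h3, intervalIntegral.integral_add (hint hx) (hint hy), h f hf t ht, h' f hf t ht]
    rfl
  · rintro c x hx ⟨H, hH, h⟩
    refine ⟨c • H, (Pol A).smul_mem c hH, fun f hf t ht => ?_⟩
    have h3 : ∫ s in (0 : ℝ)..t, f s • (c • x) (∫ p in (0 : ℝ)..s, f p) =
        ∫ s in (0 : ℝ)..t, c • (f s • x (∫ p in (0 : ℝ)..s, f p)) := by
      refine intervalIntegral.integral_congr fun s _ => ?_
      exact smul_comm _ _ _
    rw [h3, intervalIntegral.integral_smul, h f hf t ht]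
    rfl

/-- the iterated integrals over a path in a parabola are polynomials of the parameter -/
theorem iter_pol [CompleteSpace A] (hP : ProdStatement) (R : EE 2 →L[ℝ] A) (p q : EE 2)
    (k : ℕ) : ∃ G ∈ Pol A, ∀ (u : ℝ → EE 2) (f : ℝ → ℝ), IntegrableOn f (Ioc 0 1) →
      (∀ᵐ t ∂(volume.restrict (Ioc (0 : ℝ) 1)),
        u t = f t • (p + (2 * ∫ s in (0 : ℝ)..t, f s) • q)) →
      ∀ t ∈ Icc (0 : ℝ) 1, iter R u k t = G (∫ s in (0 : ℝ)..t, f s) := by
  induction k with
  | zero => exact ⟨_, pol_const 1, fun u f _ _ t _ => rfl⟩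
  | succ k ih =>
    obtain ⟨G, hG, h⟩ := ih
    have hG2 : (fun x => G x * R p) + (2 : ℝ) • (fun x => x • (G x * R q)) ∈ Pol A :=
      (Pol A).add_mem (pol_mul hG _) ((Pol A).smul_mem 2 (pol_var (pol_mul hG _)))
    obtain ⟨H, hH, h'⟩ := pol_prim hP hG2
    refine ⟨H, hH, fun u f hf hu t ht => ?_⟩
    rw [← h' f hf t ht]
    change ∫ s in (0 : ℝ)..t, iter R u k s * R (u s) = _
    refine intervalIntegral.integral_congr_ae ?_
    rw [uIoc_of_le ht.1]
    rw [ae_restrict_iff' measurableSet_Ioc] at hu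
    filter_upwards [hu] with s hs hmem
    have hs1 : s ∈ Ioc (0 : ℝ) 1 := ⟨hmem.1, hmem.2.trans ht.2⟩
    rw [h u f hf (by rw [ae_restrict_iff' measurableSet_Ioc]; exact hu) s ⟨hs1.1.le, hs1.2⟩,
      hs hs1]
    simp only [Pi.add_apply, Pi.smul_apply, map_smul, map_add, mul_smul_comm, mul_add]
    rw [smul_smul]

end

end ParaAux

open ParaAux in
theorem para (g : Type) [NormedAddCommGroup g] [NormedSpace ℝ g] [FiniteDimensional ℝ g]
    (hP : ProdStatement) : ParaStatement g := by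
  intro C u τ p q h
  set f : ℝ → ℝ := fun s => τ (u s) with hf
  have hui : IntegrableOn (fun s => (u s : EE 2)) (Ioc 0 1) :=
    (Lp.memLp u).integrable (by norm_num)
  have hfi : IntegrableOn f (Ioc 0 1) := τ.toContinuousLinearMap.integrable_comp hui
  have hθ : ∀ t ∈ Icc (0 : ℝ) 1, τ (∫ s in (0 : ℝ)..t, u s) = ∫ s in (0 : ℝ)..t, f s := by
    intro t ht
    exact (τ.toContinuousLinearMap.intervalIntegral_comp_comm (ii hui ht)).symm
  have hc := cont_prim hfi
  have h2i : IntegrableOn (fun s => f s * (2 * ∫ p in (0 : ℝ)..s, f p)) (Ioc 0 1) := by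
    have hfi' := hfi
    rw [← integrableOn_Icc_iff_integrableOn_Ioc] at hfi' ⊢
    exact hfi'.mul_continuousOn (continuousOn_const.mul hc) isCompact_Icc
  have hv : ∀ s, f s • (p + (2 * ∫ p in (0 : ℝ)..s, f p) • q) =
      f s • p + (f s * (2 * ∫ p in (0 : ℝ)..s, f p)) • q := by
    intro s
    rw [smul_add, smul_smul]
  have hi1 : IntegrableOn (fun s => f s • p) (Ioc 0 1) := hfi.smul_const p
  have hi2 : IntegrableOn (fun s => (f s * (2 * ∫ p in (0 : ℝ)..s, f p)) • q) (Ioc 0 1) :=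
    h2i.smul_const q
  have hi12 : IntegrableOn (fun s => f s • p + (f s * (2 * ∫ p in (0 : ℝ)..s, f p)) • q)
      (Ioc 0 1) := hi1.add hi2
  have hu : ∀ᵐ t ∂(volume.restrict (Ioc (0 : ℝ) 1)),
      u t = f t • (p + (2 * ∫ s in (0 : ℝ)..t, f s) • q) := by
    have h1 := ae_zero (f := fun s => (u s : EE 2) -
      (f s • p + (f s * (2 * ∫ p in (0 : ℝ)..s, f p)) • q)) (hui.sub hi12) ?_
    · filter_upwards [h1] with t ht
      rw [hv]
      exact sub_eq_zero.1 ht
    · intro t ht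
      rw [intervalIntegral.integral_sub (ii hui ht) (ii hi12 ht),
        intervalIntegral.integral_add (ii hi1 ht) (ii hi2 ht),
        intervalIntegral.integral_smul_const, intervalIntegral.integral_smul_const]
      have h3 := pow_prim hP hfi 1 t ht
      norm_num at h3
      rw [← h3, h t ht, hθ t ht, sub_self]
  set σ : ℝ := ∫ s in (0 : ℝ)..1, f s with hσ
  refine ⟨σ • p, σ ^ 2 • q, ?_⟩
  change flow C.R (C.s + 1) u 1 = flow C.R (C.s + 1) _ 1
  simp only [flow]
  refine Finset.sum_congr rfl fun k _ => ?_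
  obtain ⟨G, -, hG⟩ := iter_pol hP C.R p q k
  have h1 : (1 : ℝ) ∈ Icc (0 : ℝ) 1 := ⟨zero_le_one, le_rfl⟩
  rw [hG u f hfi hu 1 h1]
  have hci : IntegrableOn (fun _ : ℝ => σ) (Ioc 0 1) := by
    simp
  rw [hG (fun t => σ • p + (2 * t) • σ ^ 2 • q) (fun _ => σ) hci ?_ 1 h1]
  · congr 1
    simp [hσ]
  · refine ae_of_all _ fun t => ?_
    simp only [intervalIntegral.integral_const, sub_zero, smul_eq_mul]
    rw [smul_add, smul_smul, smul_smul]
    congr 2
    ring

end Pool.Agent.CutLoci.H57
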